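import Pool.Agent.PDM.Stmts

/-!
# BAL: tree components are balanced
-/

set_option autoImplicit false
set_option linter.unusedSectionVars false

open Finset

namespace Pool.Agent.PDM.H59

section
variable {ι : Type} [Fintype ι] [DecidableEq ι] {μ : ι → ι → ℕ}

/-- the graph `μ i j ≠ 0` -/
def gx (μ : ι → ι → ℕ) (hs : ∀ i j, μ i j = μ j i) (h0 : ∀ i, μ i i = 0) : SimpleGraph ι where
  Adj i j := μ i j ≠ 0
  symm := ⟨fun i j h => by rwa [hs j i]⟩
  loopless := ⟨fun i h => h (h0 i)⟩

variable (hs : ∀ i j, μ i j = μ j i) (h0 : ∀ i, μ i i = 0)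

open Classical in
/-- the vertex set of a component -/
noncomputable def sc (c : (gx μ hs h0).ConnectedComponent) : Finset ι :=
  univ.filter fun i => (gx μ hs h0).connectedComponentMk i = c

theorem mem_sc {c : (gx μ hs h0).ConnectedComponent} {i : ι} :
    i ∈ sc hs h0 c ↔ (gx μ hs h0).connectedComponentMk i = c := by
  classical
  unfold sc
  rw [mem_filter]
  exact ⟨fun h => h.2, fun h => ⟨mem_univ _, h⟩⟩

theorem adj_sc {c : (gx μ hs h0).ConnectedComponent} {i j : ι} (hi : i ∈ sc hs h0 c)
    (h : μ i j ≠ 0) : j ∈ sc hs h0 c := by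
  rw [mem_sc] at *
  rw [← hi]
  exact (SimpleGraph.ConnectedComponent.connectedComponentMk_eq_of_adj
    (show (gx μ hs h0).Adj i j from h)).symm

open Classical in
theorem card_edges (c : (gx μ hs h0).ConnectedComponent) :
    2 * Nat.card c.toSimpleGraph.edgeSet =
      ∑ i ∈ sc hs h0 c, (univ.filter fun j => μ i j ≠ 0).card := by
  have h1 := c.toSimpleGraph.sum_degrees_eq_twice_card_edges
  rw [Nat.card_eq_fintype_card, ← SimpleGraph.edgeFinset_card, ← h1]
  have h2 : ∀ v : c, c.toSimpleGraph.degree v =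
      (univ.filter fun j => μ (v : ι) j ≠ 0).card := by
    intro v
    rw [← SimpleGraph.card_neighborFinset_eq_degree,
      ← Finset.card_map (Function.Embedding.subtype _)]
    congr 1
    ext j
    simp only [mem_map, SimpleGraph.mem_neighborFinset, Function.Embedding.subtype_apply,
      mem_filter, mem_univ, true_and]
    constructor
    · rintro ⟨w, hw, rfl⟩
      exact hw
    · intro hj
      have h3 : (gx μ hs h0).Adj v j := hj
      have h4 : j ∈ c := (SimpleGraph.ConnectedComponent.mem_supp_congr_adj c h3).1 v.2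
      exact ⟨⟨j, h4⟩, h3, rfl⟩
  rw [Finset.sum_congr rfl fun v _ => h2 v]
  symm
  apply Finset.sum_subtype
  intro i
  rw [mem_sc]
  rfl

theorem card_sc (c : (gx μ hs h0).ConnectedComponent) : (sc hs h0 c).card = Nat.card c := by
  classical
  rw [Nat.card_eq_fintype_card, Fintype.card_subtype]
  rfl

theorem total :
    Nat.card {p : ι × ι // μ p.1 p.2 ≠ 0} = ∑ i, (univ.filter fun j => μ i j ≠ 0).card := by
  rw [Nat.card_eq_fintype_card, Fintype.card_subtype, Finset.card_filter,
    Fintype.sum_prod_type]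
  exact Finset.sum_congr rfl fun i _ => (Finset.card_filter _ _).symm

/-- the signs of a tree component -/
theorem signs (c : (gx μ hs h0).ConnectedComponent) (hc : c.toSimpleGraph.IsTree) :
    ∃ s : ι → ℤ, (∀ i, s i = 1 ∨ s i = -1) ∧
      ∀ i ∈ sc hs h0 c, ∀ j, μ i j ≠ 0 → s i = - s j := by
  classical
  obtain ⟨col⟩ := hc.colorable_two
  refine ⟨fun i => if h : i ∈ c then (if col ⟨i, h⟩ = 0 then 1 else -1) else 1, ?_, ?_⟩
  · intro i
    simp only
    by_cases h : i ∈ c
    · rw [dif_pos h]
      by_cases h2 : col ⟨i, h⟩ = 0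
      · rw [if_pos h2]
        exact Or.inl rfl
      · rw [if_neg h2]
        exact Or.inr rfl
    · rw [dif_neg h]
      exact Or.inl rfl
  · intro i hi j hij
    have hj := adj_sc hs h0 hi hij
    rw [mem_sc] at hi hj
    have hi' : i ∈ c := hi
    have hj' : j ∈ c := hj
    simp only [dif_pos hi', dif_pos hj']
    have hadj : c.toSimpleGraph.Adj ⟨i, hi'⟩ ⟨j, hj'⟩ := hij
    have hne := col.valid hadj
    have h2 : ∀ x : Fin 2, x = 0 ∨ x = 1 := by decide
    rcases h2 (col ⟨i, hi'⟩) with h | h <;> rcases h2 (col ⟨j, hj'⟩) with h' | h'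
    · exact absurd (h.trans h'.symm) hne
    · rw [h, h']
      simp
    · rw [h, h']
      simp
    · exact absurd (h.trans h'.symm) hne

end

theorem bal : BalStmt := by
  intro ι _ _ d μ B hs h0 hd hB
  classical
  set X := gx μ hs h0 with hX
  -- the differences
  have hdiff : ∀ S : Finset ι, ∑ i ∈ S, (d i - ∑ j, μ i j) ≤ B := by
    intro S
    have h1 : ∑ i ∈ S, (d i - ∑ j, μ i j) ≤ ∑ i, (d i - ∑ j, μ i j) :=
      Finset.sum_le_sum_of_subset (Finset.subset_univ S)
    have h2 : ∑ i, (d i - ∑ j, μ i j) + ∑ i, ∑ j, μ i j = ∑ i, d i := by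
      rw [← Finset.sum_add_distrib]
      exact Finset.sum_congr rfl fun i _ => Nat.sub_add_cancel (hd i)
    omega
  set F : Finset X.ConnectedComponent := univ.filter fun c => c.toSimpleGraph.IsTree with hF
  have hinj : ∀ c c' : X.ConnectedComponent, sc hs h0 c = sc hs h0 c' → c = c' := by
    intro c c' h
    obtain ⟨v, hv⟩ := c.nonempty_supp
    have h1 : v ∈ sc hs h0 c := (mem_sc hs h0).2 hv
    rw [h] at h1
    exact hv.symm.trans ((mem_sc hs h0).1 h1)
  have hdisj : ∀ c c' : X.ConnectedComponent, c ≠ c' →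
      Disjoint (sc hs h0 c) (sc hs h0 c') := by
    intro c c' h
    rw [Finset.disjoint_left]
    intro v hv hv'
    rw [mem_sc] at hv hv'
    exact h (hv.symm.trans hv')
  refine ⟨F.image (sc hs h0), ?_, ?_, ?_, ?_, ?_⟩
  · intro C hC
    obtain ⟨c, _, rfl⟩ := Finset.mem_image.1 hC
    obtain ⟨v, hv⟩ := c.nonempty_supp
    exact ⟨v, (mem_sc hs h0).2 hv⟩
  · intro C hC C' hC' hne
    obtain ⟨c, _, rfl⟩ := Finset.mem_image.1 hC
    obtain ⟨c', _, rfl⟩ := Finset.mem_image.1 hC'
    exact hdisj c c' fun h => hne (by rw [h])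
  · rw [Finset.card_image_of_injective _ (fun c c' h => hinj c c' h), total]
    have h1 : ∑ i, (univ.filter fun j => μ i j ≠ 0).card =
        ∑ c : X.ConnectedComponent, ∑ i ∈ sc hs h0 c, (univ.filter fun j => μ i j ≠ 0).card := by
      unfold sc
      exact (Finset.sum_fiberwise univ X.connectedComponentMk _).symm
    have h2 : Fintype.card ι = ∑ c : X.ConnectedComponent, (sc hs h0 c).card := by
      have := (Finset.sum_fiberwise (univ : Finset ι) X.connectedComponentMk (fun _ => 1)).symm
      simp only [Finset.sum_const, smul_eq_mul, mul_one] at this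
      rw [Finset.card_univ] at this
      rw [this]
      rfl
    have h3 : F.card = ∑ c : X.ConnectedComponent, if c.toSimpleGraph.IsTree then 1 else 0 := by
      rw [hF, Finset.card_filter]
    rw [h1, h2, h3, Finset.mul_sum, Finset.mul_sum, ← Finset.sum_add_distrib]
    apply Finset.sum_le_sum
    intro c _
    rw [← card_edges, card_sc]
    have h4 := c.connected_toSimpleGraph.card_vert_le_card_edgeSet_add_one
    by_cases h5 : c.toSimpleGraph.IsTree
    · rw [if_pos h5]
      omega
    · rw [if_neg h5]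
      have h6 : Nat.card c.toSimpleGraph.edgeSet + 1 ≠ Nat.card c := fun h =>
        h5 (SimpleGraph.isTree_iff_connected_and_card.2 ⟨c.connected_toSimpleGraph, h⟩)
      omega
  · intro C hC
    obtain ⟨c, hc, rfl⟩ := Finset.mem_image.1 hC
    obtain ⟨s, hs1, hs2⟩ := signs hs h0 c (Finset.mem_filter.1 hc).2
    refine ⟨s, hs1, ?_⟩
    set S := sc hs h0 c with hS
    have hz : ∑ i ∈ S, s i * ((∑ j, μ i j : ℕ) : ℤ) = 0 := by
      have e1 : ∑ i ∈ S, s i * ((∑ j, μ i j : ℕ) : ℤ) =
          ∑ i ∈ S, ∑ j ∈ S, s i * (μ i j : ℤ) := by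
        apply Finset.sum_congr rfl
        intro i hi
        push_cast
        rw [Finset.mul_sum]
        symm
        apply Finset.sum_subset (Finset.subset_univ S)
        intro j _ hj
        by_cases h : μ i j = 0
        · rw [h]
          simp
        · exact absurd (adj_sc hs h0 hi h) hj
      have e2 : ∑ i ∈ S, ∑ j ∈ S, s i * (μ i j : ℤ) =
          - ∑ i ∈ S, ∑ j ∈ S, s i * (μ i j : ℤ) := by
        conv_lhs => rw [Finset.sum_comm]
        rw [← Finset.sum_neg_distrib]
        apply Finset.sum_congr rfl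
        intro j _
        rw [← Finset.sum_neg_distrib]
        apply Finset.sum_congr rfl
        intro i hi
        by_cases h : μ i j = 0
        · rw [h, hs j i, h]
          simp
        · rw [hs2 i hi j h, hs j i]
          ring
      rw [e1]
      omega
    have h1 : ∑ i ∈ S, s i * (d i : ℤ) = ∑ i ∈ S, s i * ((d i - ∑ j, μ i j : ℕ) : ℤ) := by
      have e3 : ∀ i ∈ S, s i * (d i : ℤ) =
          s i * ((d i - ∑ j, μ i j : ℕ) : ℤ) + s i * ((∑ j, μ i j : ℕ) : ℤ) := by
        intro i _
        rw [← mul_add]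
        congr 1
        have := hd i
        omega
      rw [Finset.sum_congr rfl e3, Finset.sum_add_distrib, hz, add_zero]
    rw [h1]
    calc |∑ i ∈ S, s i * ((d i - ∑ j, μ i j : ℕ) : ℤ)|
        ≤ ∑ i ∈ S, |s i * ((d i - ∑ j, μ i j : ℕ) : ℤ)| := Finset.abs_sum_le_sum_abs _ _
      _ = ∑ i ∈ S, ((d i - ∑ j, μ i j : ℕ) : ℤ) := by
          apply Finset.sum_congr rfl
          intro i _
          rw [abs_mul, Nat.abs_cast]
          rcases hs1 i with h | h <;> rw [h] <;> simp
      _ ≤ B := by
          rw [← Nat.cast_sum]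
          exact_mod_cast hdiff S
  · intro z
    refine ⟨sc hs h0 (X.connectedComponentMk z), (mem_sc hs h0).2 rfl, ?_, ?_⟩
    · intro C hC hz
      obtain ⟨c, _, rfl⟩ := Finset.mem_image.1 hC
      apply hdisj
      rintro rfl
      exact hz ((mem_sc hs h0).2 rfl)
    · have h1 : d z ≤ ∑ j, μ z j + B := by
        have := hdiff {z}
        rw [Finset.sum_singleton] at this
        omega
      have h2 : ∑ j, μ z j ≤ ∑ i ∈ (sc hs h0 (X.connectedComponentMk z)).erase z, d i := by
        have e1 : ∑ j, μ z j =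
            ∑ j ∈ (sc hs h0 (X.connectedComponentMk z)).erase z, μ z j := by
          symm
          apply Finset.sum_subset (Finset.subset_univ _)
          intro j _ hj
          by_contra h
          apply hj
          rw [Finset.mem_erase]
          refine ⟨?_, adj_sc hs h0 ((mem_sc hs h0).2 rfl) h⟩
          rintro rfl
          exact h (h0 j)
        rw [e1]
        apply Finset.sum_le_sum
        intro j _
        rw [hs z j]
        exact (Finset.single_le_sum (f := fun i => μ j i) (fun i _ => Nat.zero_le _)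
          (mem_univ z)).trans (hd j)
      omega

end Pool.Agent.PDM.H59
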